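import Mathlib

namespace Pool.Agent.H.MP_acd137_co

variable (p : ℕ)

def io : ZMod p →+ ZMod (p * p) :=
  ZMod.lift p ⟨(AddMonoidHom.mulLeft (p : ZMod (p * p))).comp (Int.castAddHom _), by
    simp [← Nat.cast_mul]⟩

def pr : ZMod (p * p) →+* ZMod p := ZMod.castHom (dvd_mul_left p p) _

variable {p}

lemma io_cast (n : ℤ) : io p (n : ZMod p) = (p : ZMod (p * p)) * n := by
  simp [io]

lemma pr_io (c : ZMod p) : pr p (io p c) = 0 := by
  obtain ⟨n, rfl⟩ := ZMod.intCast_surjective c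
  simp [io_cast]

lemma io_pr (x : ZMod (p * p)) : io p (pr p x) = p * x := by
  obtain ⟨n, rfl⟩ := ZMod.intCast_surjective x
  rw [map_intCast, io_cast]

lemma ker_pr (x : ZMod (p * p)) (h : pr p x = 0) : ∃ c, x = io p c := by
  obtain ⟨n, rfl⟩ := ZMod.intCast_surjective x
  rw [map_intCast, ZMod.intCast_zmod_eq_zero_iff_dvd] at h
  obtain ⟨m, rfl⟩ := h
  exact ⟨m, by simp [io_cast]⟩

lemma io_one (hp : 1 < p) : io p 1 ≠ 0 := by
  have := io_cast (p := p) 1
  simp only [Int.cast_one, mul_one] at this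
  rw [this, Ne, ZMod.natCast_eq_zero_iff]
  intro h
  have := Nat.le_of_dvd (by omega) h
  nlinarith

@[ext] structure M (p : ℕ) where
  x : ZMod (p * p)
  s : ZMod p

instance : Mul (M p) := ⟨fun a b => ⟨a.x + b.x + io p (a.s * pr p b.x), a.s + b.s⟩⟩
instance : One (M p) := ⟨⟨0, 0⟩⟩
instance : Inv (M p) := ⟨fun a => ⟨-a.x + io p (a.s * pr p a.x), -a.s⟩⟩

@[simp] lemma mul_x (a b : M p) : (a * b).x = a.x + b.x + io p (a.s * pr p b.x) := rfl
@[simp] lemma mul_s (a b : M p) : (a * b).s = a.s + b.s := rfl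
@[simp] lemma one_x : (1 : M p).x = 0 := rfl
@[simp] lemma one_s : (1 : M p).s = 0 := rfl
@[simp] lemma inv_x (a : M p) : (a⁻¹).x = -a.x + io p (a.s * pr p a.x) := rfl
@[simp] lemma inv_s (a : M p) : (a⁻¹).s = -a.s := rfl

instance : Group (M p) := Group.ofLeftAxioms
  (fun a b c => by ext <;> simp [pr_io, mul_add, add_mul] <;> abel)
  (fun a => by ext <;> simp)
  (fun a => by ext <;> simp)

def eqv (p : ℕ) : M p ≃ ZMod (p * p) × ZMod p :=
  ⟨fun a => (a.x, a.s), fun a => ⟨a.1, a.2⟩, fun _ => rfl, fun _ => rfl⟩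

noncomputable instance [NeZero p] : Fintype (M p) := Fintype.ofEquiv _ (eqv p).symm

lemma card_M [NeZero p] : Fintype.card (M p) = p * p * p := by
  rw [Fintype.card_congr (eqv p)]; simp

lemma pow_eq (a : M p) (n : ℕ) :
    a ^ n = ⟨n * a.x + io p ((n.choose 2 : ℕ) * (a.s * pr p a.x)), n * a.s⟩ := by
  induction n with
  | zero => ext <;> simp
  | succ n ih =>
    rw [pow_succ, ih]
    ext
    · simp [Nat.choose_succ_succ' n 1, add_mul, mul_assoc]; abel
    · simp [add_mul]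

def z (c : ZMod p) : M p := ⟨io p c, 0⟩

def m (s t : ZMod p) : M p := ⟨io p s, t⟩

lemma pow_p (hp : p.Prime) (h2 : 2 < p) (a : M p) : a ^ p = z (pr p a.x) := by
  rw [pow_eq]
  have : ((p.choose 2 : ℕ) : ZMod p) = 0 :=
    (ZMod.natCast_eq_zero_iff _ _).2 (hp.dvd_choose_self (by norm_num) h2)
  ext <;> simp [z, this, io_pr]

lemma m_pow (s t : ZMod p) (n : ℕ) : m s t ^ n = m ((n : ZMod p) * s) ((n : ZMod p) * t) := by
  rw [pow_eq]
  ext <;> simp [m, pr_io, ← nsmul_eq_mul]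

lemma order_le (hp : p.Prime) (h2 : 2 < p) (a : M p) : orderOf a ≤ p * p := by
  refine Nat.le_of_dvd (by positivity) (orderOf_dvd_of_pow_eq_one ?_)
  rw [pow_mul, pow_p hp h2, pow_p hp h2]
  ext <;> simp [z, pr_io]

theorem big (hp : p.Prime) (h2 : 2 < p) {k : ℕ} (Γ : SimpleGraph (Fin k))
    (e : (Γ ≃g Γ) ≃* M p) : p * p * p ≤ k := by
  classical
  have : Fact p.Prime := ⟨hp⟩
  by_contra hk
  let ρ : M p → Fin k → Fin k := fun g v => e.symm g v
  have ρm : ∀ g h v, ρ (g * h) v = ρ g (ρ h v) := fun g h v => by simp [ρ]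
  have ρ1 : ∀ v, ρ 1 v = v := fun v => by simp [ρ]
  have ρi : ∀ g v w, ρ g v = ρ g w → v = w := fun g v w h => (e.symm g).injective h
  have ρp : ∀ g v, ρ g v = v → ∀ n : ℕ, ρ (g ^ n) v = v := fun g v h n => by
    induction n with
    | zero => rw [pow_zero, ρ1]
    | succ n ih => rw [pow_succ, ρm, h, ih]
  let I : Fin k → Prop := fun v => ∀ c, ρ (z c) v = v
  let K : Fin k → ZMod p → Prop := fun v c => ∀ s t, ρ (m s t) v = ρ (z (s + t * c)) v
  have mfix : ∀ s t v, ρ (m s t) v = v → ∀ u, ρ (m (u * s) (u * t)) v = v := fun s t v h u => by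
    have := ρp _ _ h u.val
    rwa [m_pow, ZMod.natCast_zmod_val] at this
  have zI : ∀ c v, c ≠ 0 → ρ (z c) v = v → I v := fun c v hc h d => by
    have := mfix c 0 v h (d / c)
    rwa [div_mul_cancel₀ _ hc, mul_zero] at this
  have st : ∀ g v, ρ g v = v → ¬ I v → ∃ r s, g = m r s := fun g v h hI => by
    have h1 := ρp _ _ h p
    rw [pow_p hp h2] at h1
    obtain ⟨c, hc⟩ := ker_pr g.x (by by_contra h0; exact hI (zI _ _ h0 h1))
    exact ⟨c, g.s, by ext <;> simp [m, hc]⟩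
  have cls : ∀ v, ¬ I v → ∃ c, K v c := by
    intro v hI
    obtain ⟨g, hg, hv⟩ : ∃ g, g ≠ 1 ∧ ρ g v = v := by
      by_contra hc
      push Not at hc
      have : Function.Injective fun g => ρ g v := fun g h hgh => by
        by_contra hne
        refine hc (h⁻¹ * g) (fun h1 => hne (inv_mul_eq_one.1 h1).symm) ?_
        simp only at hgh
        rw [ρm, hgh, ← ρm, inv_mul_cancel, ρ1]
      have := Fintype.card_le_of_injective _ this
      rw [card_M, Fintype.card_fin] at this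
      exact hk this
    obtain ⟨r, s, rfl⟩ := st g v hv hI
    have hs : s ≠ 0 := by
      rintro rfl
      refine hI (zI r v ?_ hv)
      rintro rfl
      exact hg (by ext <;> simp [m])
    refine ⟨-(r / s), fun s' t => ?_⟩
    have h1 := mfix r s v hv (t / s)
    rw [div_mul_cancel₀ _ hs] at h1
    have h3 : m s' t = z (s' + t * -(r / s)) * m (t / s * r) t := by
      ext
      · simp only [m, z, mul_x, zero_mul, map_zero, add_zero, ← map_add]
        congr 1; ring
      · simp [m, z]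
    rw [h3, ρm, h1]
  obtain ⟨v0, hv0⟩ : ∃ v, ρ (z 1) v ≠ v := by
    by_contra hc
    push Not at hc
    have : e.symm (z 1) = 1 := by ext v; exact congrArg Fin.val (hc v)
    rw [map_eq_one_iff _ e.symm.injective] at this
    exact io_one hp.one_lt (congrArg M.x this)
  have hI0 : ¬ I v0 := fun h => hv0 (h 1)
  obtain ⟨c0, hc0⟩ := cls v0 hI0
  have zm : ∀ s, z s = m (p := p) s 0 := fun _ => rfl
  let φ : Fin k → Fin k := fun v => if ¬ I v ∧ K v c0 then ρ (z 1) v else v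
  have pair1 : ∀ v w, (¬ I v ∧ K v c0) → ¬ (¬ I w ∧ K w c0) →
      ∃ g, ρ g v = ρ (z 1) v ∧ ρ g w = w := by
    intro v w hv hw
    by_cases hIw : I w
    · exact ⟨z 1, rfl, hIw 1⟩
    · obtain ⟨c, hc⟩ := cls w hIw
      have hne : c0 - c ≠ 0 := fun h => hw ⟨hIw, (sub_eq_zero.1 h) ▸ hc⟩
      refine ⟨m (-(c / (c0 - c))) (1 / (c0 - c)), ?_, ?_⟩
      · rw [hv.2]; congr 2; field_simp; ring
      · rw [hc, show -(c / (c0 - c)) + 1 / (c0 - c) * c = 0 by field_simp; ring]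
        have : z (0 : ZMod p) = 1 := by ext <;> simp [z]
        rw [this, ρ1]
  have pair : ∀ v w, ∃ g, ρ g v = φ v ∧ ρ g w = φ w := by
    intro v w
    by_cases hv : ¬ I v ∧ K v c0 <;> by_cases hw : ¬ I w ∧ K w c0 <;>
      simp only [φ, hv, hw, if_false, not_false_iff, and_self, if_true]
    · exact ⟨z 1, rfl, rfl⟩
    · exact pair1 v w hv hw
    · obtain ⟨g, h1, h2⟩ := pair1 w v hw hv
      exact ⟨g, h2, h1⟩
    · exact ⟨1, ρ1 _, ρ1 _⟩
  have φi : Function.Injective φ := fun v w h => by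
    obtain ⟨g, h1, h2⟩ := pair v w
    exact ρi g _ _ (by rw [h1, h2, h])
  let Φ : Γ ≃g Γ := ⟨Equiv.ofBijective φ (Finite.injective_iff_bijective.1 φi), by
    intro v w
    obtain ⟨g, h1, h2⟩ := pair v w
    simp only [Equiv.ofBijective_apply, ← h1, ← h2]
    exact (e.symm g).map_rel_iff⟩
  have hg : ∀ v, ρ (e Φ) v = φ v := fun v => by simp [ρ, Φ]
  let a : ℕ → M p := fun j => ⟨j, 0⟩
  have zc : ∀ j c, z c * a j = a j * z c := fun j c => by ext <;> simp [z, a, add_comm]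
  have aI : ∀ j, ¬ I (ρ (a j) v0) := fun j h => hv0 (ρi (a j) _ _ (by
    rw [← ρm, ← zc, ρm, h 1]))
  have aK : ∀ j : ℕ, K (ρ (a j) v0) (c0 + j) := fun j s t => by
    have : m s t * a j = a j * m (s + t * (j : ZMod p)) t := by
      ext
      · simp [m, a]; abel
      · simp [m, a]
    rw [← ρm, this, ρm, hc0, ← ρm, ← zc, ρm]
    congr 2; ring
  have uniq : ∀ v s t, ¬ I v → ρ (z s) v = ρ (z t) v → s = t := fun v s t hI h => by
    by_contra hne
    refine hI (zI (s - t) v (sub_ne_zero.2 hne) (ρi (z t) _ _ ?_))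
    rw [← ρm, ← h]
    congr 1
    ext <;> simp [z]
  have h1ne : ((1 : ℕ) : ZMod p) ≠ 0 := by simp
  have h2ne : ((2 : ℕ) : ZMod p) ≠ 0 := by
    rw [Ne, ZMod.natCast_eq_zero_iff]
    intro h; have := Nat.le_of_dvd (by norm_num) h; omega
  have fixa : ∀ j : ℕ, (j : ZMod p) ≠ 0 → ρ (e Φ) (ρ (a j) v0) = ρ (a j) v0 := fun j hj => by
    rw [hg]
    refine if_neg fun h => hj ?_
    have := uniq _ _ _ (aI j) ((aK j 0 1).symm.trans (h.2 0 1))
    simpa using this
  obtain ⟨r, s, hrs⟩ := st _ _ (fixa 1 h1ne) (aI 1)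
  have z0 : z (0 : ZMod p) = 1 := by ext <;> simp [z]
  have e1 := fixa 1 h1ne
  have e2 := fixa 2 h2ne
  rw [hrs, aK] at e1 e2
  have f1 := uniq _ _ 0 (aI 1) (by rw [e1, z0, ρ1])
  have f2 := uniq _ _ 0 (aI 2) (by rw [e2, z0, ρ1])
  push_cast at f1 f2
  have hs : s = 0 := by linear_combination f2 - f1
  have hr : r = 0 := by rw [hs] at f1; simpa using f1
  have := hg v0
  rw [hrs, hs, hr, ← zm, z0, ρ1] at this
  simp only [φ, hI0, hc0, not_false_iff, and_self, if_true] at this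
  exact hv0 this.symm

end Pool.Agent.H.MP_acd137_co
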